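import Mathlib
import Pool.Agent.P.MP_9e9aa3_co.FactsPf
import Pool.Agent.P.MP_9e9aa3_co.Glue
import Pool.Agent.P.MP_9e9aa3_co.Stab
import Pool.Agent.P.MP_9e9aa3_co.Limit

set_option autoImplicit false

open Filter Topology

namespace Pool.Agent.Results.MP_9e9aa3_co.Seven

/-- The least size of a set of points of the cube `{0,..,n-1}^k` such that every point of the cube
is within Hamming distance one of the set. -/
noncomputable def rookCover (n k : ℕ) : ℕ :=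
  sInf {m : ℕ | ∃ S : Finset (Fin k → Fin n), S.card = m ∧ ∀ x, ∃ p ∈ S, hammingDist x p ≤ 1}

theorem result : ∃ c : ℝ, 1 / 6 < c ∧
    Tendsto (fun n : ℕ => (rookCover n 7 : ℝ) / (n : ℝ) ^ 6) atTop (𝓝 c) := by
  obtain ⟨ε, hε, h⟩ := Pool.Agent.P.MP_9e9aa3_co.stab
    (Pool.Agent.P.MP_9e9aa3_co.noFrac5_of_facts Pool.Agent.P.MP_9e9aa3_co.facts)
  obtain ⟨c, hc⟩ := Pool.Agent.P.MP_9e9aa3_co.limit_exists 6
  refine ⟨c, lt_of_lt_of_le (by linarith : (1 : ℝ) / 6 < 1 / 6 + ε) ?_, hc⟩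
  refine ge_of_tendsto hc (eventually_atTop.2 ⟨1, fun n hn => ?_⟩)
  have hpos : (0 : ℝ) < (n : ℝ) ^ 6 := by positivity
  rw [le_div_iff₀ hpos]
  have hne : {m : ℕ | ∃ S : Finset (Fin (6 + 1) → Fin n), S.card = m ∧
      ∀ x, ∃ p ∈ S, hammingDist x p ≤ 1}.Nonempty :=
    ⟨_, Finset.univ, rfl, fun x => ⟨x, Finset.mem_univ _, by simp⟩⟩
  obtain ⟨S, hS, hcov⟩ := Nat.sInf_mem hne
  rw [← hS]
  exact h n hn S hcov

end Pool.Agent.Results.MP_9e9aa3_co.Seven
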